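import Mathlib
import Pool.Agent.Helper77.SM.St.Param
import Pool.Agent.Helper21.SO.General
import Pool.Agent.Helper77.SM.Basic

/-!
# Second order criterion over discrete valuation rings: general coefficient rings
-/

set_option autoImplicit false
set_option linter.unusedSectionVars false

open PowerSeries IsLocalRing Topology

namespace Pool.Agent.Helper39.SM

open Pool.Agent.Helper27.TFM

section

variable {Γ : Type} [Group Γ] [TopologicalSpace Γ] [IsTopologicalGroup Γ] [CompactSpace Γ]

variable {A : Type} [CommRing A] [IsLocalRing A] [IsNoetherianRing A] [Finite (ResidueField A)]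
  [IsAdicComplete (maximalIdeal A) A]

/-- the case of a quotient which embeds into a discrete valuation ring -/
theorem isOpen_KI_of_dvr (p : ℕ) [Fact p.Prime] {n : ℕ} (I : Set Γ)
    (hcore : ∀ (O : Type) [CommRing O] [IsDomain O] [IsDiscreteValuationRing O],
      Helper77.SM.Good p O → ∀ (ϖ : O), Irreducible ϖ → ∀ (σ : Γ →* Matrix (Fin n) (Fin n) O),
        Helper77.SM.Cont ϖ σ → Helper77.SM.ResP ϖ p σ →
        (∀ τ ∈ I, (σ τ - 1) ^ n = 0) → Helper77.SM.FinIm σ)
    (ρ : Γ →* Matrix (Fin n) (Fin n) A)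
    (hρ : ∀ j : ℕ, IsOpen (KI ρ (maximalIdeal A ^ j) : Set Γ))
    (hr : ∀ g, ∃ j : ℕ, ∀ i l, (ρ g ^ p ^ j - 1) i l ∈ maximalIdeal A)
    (hI : ∀ τ ∈ I, (ρ τ - 1) ^ n = 0)
    (P : Ideal A) [IsLocalRing (A ⧸ P)]
    (O : Type) [CommRing O] [IsDomain O] [IsDiscreteValuationRing O] (hO : Helper77.SM.Good p O)
    (j₁ : A ⧸ P →+* O) (hj₁ : Function.Injective j₁)
    (hm₁ : ∀ x ∈ maximalIdeal (A ⧸ P), j₁ x ∈ maximalIdeal O) :
    IsOpen (KI ρ P : Set Γ) := by
  obtain ⟨ϖ, hϖ⟩ := IsDiscreteValuationRing.exists_irreducible O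
  let j : A →+* O := j₁.comp (Ideal.Quotient.mk P)
  have hjP : ∀ a, j a = 0 → a ∈ P := by
    intro a ha
    rw [← Ideal.Quotient.eq_zero_iff_mem]
    apply hj₁
    rw [map_zero]
    exact ha
  have hjm : ∀ a ∈ maximalIdeal A, ϖ ∣ j a := fun a ha => by
    have h1 := hm₁ _ (mk_mem_maximalIdeal P ha)
    rw [Helper77.SM.maximalIdeal_eq hϖ, Ideal.mem_span_singleton] at h1
    exact h1
  have hjmk : ∀ (m : ℕ), ∀ a ∈ maximalIdeal A ^ m, ϖ ^ m ∣ j a := by
    intro m a ha
    have h1 : (maximalIdeal A).map j ≤ Ideal.span {ϖ} := by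
      rw [Ideal.map_le_iff_le_comap]
      intro b hb
      rw [Ideal.mem_comap, Ideal.mem_span_singleton]
      exact hjm b hb
    have h2 := Ideal.mem_map_of_mem j ha
    rw [Ideal.map_pow] at h2
    have h3 := Ideal.pow_right_mono h1 m h2
    rwa [Ideal.span_singleton_pow, Ideal.mem_span_singleton] at h3
  let ρ' : Γ →* Matrix (Fin n) (Fin n) O :=
    (j.mapMatrix : Matrix (Fin n) (Fin n) A →+* Matrix (Fin n) (Fin n) O).toMonoidHom.comp ρ
  have hρ' : ∀ g, ρ' g = j.mapMatrix (ρ g) := fun g => rfl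
  have hc : Helper77.SM.Cont ϖ ρ' := by
    intro m
    refine ⟨_, hρ m, fun g hg => ?_⟩
    have h1 : ρ' g - 1 = j.mapMatrix (ρ g - 1) := by rw [hρ', map_sub, map_one]
    rw [h1]
    intro i l
    exact hjmk m _ (hg i l)
  have hres : Helper77.SM.ResP ϖ p ρ' := by
    intro g
    obtain ⟨m, hm⟩ := hr g
    refine ⟨m, ?_⟩
    have h1 : ρ' g ^ p ^ m - 1 = j.mapMatrix (ρ g ^ p ^ m - 1) := by
      rw [hρ', map_sub, map_pow, map_one]
    rw [h1]
    intro i l
    rw [pow_one]
    exact hjm _ (hm i l)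
  have hI' : ∀ τ ∈ I, (ρ' τ - 1) ^ n = 0 := by
    intro τ hτ
    have h1 : ρ' τ - 1 = j.mapMatrix (ρ τ - 1) := by rw [hρ', map_sub, map_one]
    rw [h1, ← map_pow, hI τ hτ, map_zero]
  obtain ⟨U, hU, hU1⟩ := hcore O hO ϖ hϖ ρ' hc hres hI'
  refine Subgroup.isOpen_mono (H₁ := U) (H₂ := KI ρ P) (fun u hu => ?_) hU
  intro i l
  apply hjP
  have h1 : j.mapMatrix (ρ u - 1) = 0 := by
    rw [map_sub, map_one, ← hρ', hU1 u hu, sub_self]
  exact congrFun (congrFun h1 i) l

theorem isOpen_KI_all (hfab : Helper77.SO.FAb Γ) (p : ℕ) [Fact p.Prime] {n : ℕ} (I : Set Γ)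
    (hpm : (p : A) ∈ maximalIdeal A)
    (hcore : ∀ (O : Type) [CommRing O] [IsDomain O] [IsDiscreteValuationRing O],
      Helper77.SM.Good p O → ∀ (ϖ : O), Irreducible ϖ → ∀ (σ : Γ →* Matrix (Fin n) (Fin n) O),
        Helper77.SM.Cont ϖ σ → Helper77.SM.ResP ϖ p σ →
        (∀ τ ∈ I, (σ τ - 1) ^ n = 0) → Helper77.SM.FinIm σ)
    (ρ : Γ →* Matrix (Fin n) (Fin n) A)
    (hρ : ∀ j : ℕ, IsOpen (KI ρ (maximalIdeal A ^ j) : Set Γ))
    (hr : ∀ g, ∃ j : ℕ, ∀ i l, (ρ g ^ p ^ j - 1) i l ∈ maximalIdeal A)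
    (hI : ∀ τ ∈ I, (ρ τ - 1) ^ n = 0) (hn : 0 < n) :
    ∀ J : Ideal A, IsOpen (KI ρ J : Set Γ) := by
  classical
  have hadd : ∀ (M : Type) [AddCommGroup M] [Module A M] [Module.Finite A M], AddFin Γ A M :=
    fun M _ _ _ => Helper21.SO.addFin_of_fab hfab M
  have hρ1 : IsOpen (KI ρ (maximalIdeal A) : Set Γ) := by simpa using hρ 1
  intro J
  induction J using WellFoundedGT.induction with
  | ind P ih =>
    by_cases htop : P = ⊤
    · subst htop
      have : KI ρ (⊤ : Ideal A) = ⊤ := by
        rw [eq_top_iff]; intro g _ i j; trivial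
      rw [this]
      exact isOpen_univ
    by_cases hP : P.IsPrime
    swap
    · -- not prime
      rw [Ideal.isPrime_iff] at hP
      push Not at hP
      obtain ⟨a, b, hab, ha, hb⟩ := hP htop
      have hJ1 : P < P ⊔ Ideal.span {a} := by
        refine lt_of_le_of_ne le_sup_left fun h => ha ?_
        rw [h]; exact Ideal.mem_sup_right (Ideal.mem_span_singleton_self a)
      have hJ2 : P < P ⊔ Ideal.span {b} := by
        refine lt_of_le_of_ne le_sup_left fun h => hb ?_
        rw [h]; exact Ideal.mem_sup_right (Ideal.mem_span_singleton_self b)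
      have hmul : (P ⊔ Ideal.span {a}) * (P ⊔ Ideal.span {b}) ≤ P := by
        rw [Ideal.sup_mul, Ideal.mul_sup, Ideal.mul_sup]
        refine sup_le (sup_le ?_ ?_) (sup_le ?_ ?_)
        · exact Ideal.mul_le_left
        · exact Ideal.mul_le_left
        · exact Ideal.mul_le_right
        rw [Ideal.span_singleton_mul_span_singleton, Ideal.span_singleton_le_iff_mem]
        exact hab
      obtain ⟨V, hV, hVU, hVW⟩ := add_step ρ hadd hρ (KI ρ (P ⊔ Ideal.span {a}) ⊓ KI ρ (P ⊔ Ideal.span {b}))
        ((ih _ hJ1).inter (ih _ hJ2)) (MIsub n P) (by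
          intro u hu v hv
          exact ((Subgroup.mem_inf.1 hu).1.mul (Subgroup.mem_inf.1 hv).2).mono hmul)
      exact Subgroup.isOpen_mono (H₁ := V) (H₂ := KI ρ P) (fun v hv => hVW v hv) hV
    · have hnt : Nontrivial (A ⧸ P) := Ideal.Quotient.nontrivial_iff.2 hP.ne_top
      have hloc := isLocalRing_quot P
      have hres := finite_residueField_quot P
      by_cases hpP : (p : A) ∈ P
      swap
      · -- characteristic zero
        rcases dichotomy P (p : A) hpP with H | ⟨c, hc, hcQ⟩
        · have hlt : P < P ⊔ Ideal.span {(p : A) ^ 2} := by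
            refine lt_of_le_of_ne le_sup_left fun h => hpP ?_
            apply hP.mem_of_pow_mem 2
            rw [h]; exact Ideal.mem_sup_right (Ideal.mem_span_singleton_self _)
          refine Subgroup.isOpen_mono (H₁ := KI ρ (P ⊔ Ideal.span {(p : A) ^ 2})) (H₂ := KI ρ P)
            (fun u hu => ?_) (ih _ hlt)
          intro i j
          apply H
          intro Q hQ hPQ hpQ
          have hQnt : Nontrivial (A ⧸ Q) := Ideal.Quotient.nontrivial_iff.2 hQ.ne_top
          have hlocQ := isLocalRing_quot Q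
          obtain ⟨N, hN, hNu⟩ := exists_pow_mem_of_open (ih Q hPQ) u
          let E1 : Matrix (Fin n) (Fin n) A →+* Matrix (Fin n) (Fin n) (A ⧸ Q) :=
            (Ideal.Quotient.mk Q).mapMatrix
          have h1 : E1 (ρ u) ^ N = 1 := by
            rw [← map_pow, ← map_pow, ← sub_eq_zero, ← map_one E1, ← map_sub]
            ext i j
            exact Ideal.Quotient.eq_zero_iff_mem.2 (hNu i j)
          have h2 : E1 (ρ u) = 1 := by
            apply eq_one_of_serre p (D := A ⧸ Q) _ _ (E1 (ρ u)) _ N hN h1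
            · intro h0
              apply hpQ
              rw [← Ideal.Quotient.eq_zero_iff_mem, map_natCast]; exact h0
            · have := mk_mem_maximalIdeal Q hpm
              rwa [map_natCast] at this
            · rw [← map_one E1, ← map_sub]
              intro i j
              have h3 : (ρ u - 1) i j ∈ P ⊔ Ideal.span {(p : A) ^ 2} := hu i j
              obtain ⟨x, hx, y, hy, hxy⟩ := Submodule.mem_sup.1 h3
              change Ideal.Quotient.mk Q ((ρ u - 1) i j) ∈ _
              rw [← hxy, map_add, Ideal.Quotient.eq_zero_iff_mem.2 (hPQ.le hx), zero_add]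
              rw [Ideal.mem_span_singleton] at hy ⊢
              obtain ⟨z, rfl⟩ := hy
              exact ⟨Ideal.Quotient.mk Q z, by rw [map_mul, map_pow, map_natCast]⟩
          rw [← Ideal.Quotient.eq_zero_iff_mem]
          have h4 : E1 (ρ u - 1) = 0 := by rw [map_sub, h2, map_one, sub_self]
          exact congrFun (congrFun h4 i) j
        · obtain ⟨ι, -⟩ := exists_padicHom (maximalIdeal A) p hpm
          let _ : Algebra ℤ_[p] (A ⧸ P) := ((Ideal.Quotient.mk P).comp ι).toAlgebra
          have hmap : algebraMap ℤ_[p] (A ⧸ P) (p : ℤ_[p]) = Ideal.Quotient.mk P (p : A) := by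
            rw [map_natCast, map_natCast]
          have hpre : IsPrecomplete (Ideal.span {(p : ℤ_[p])}) ℤ_[p] := by
            rw [← PadicInt.maximalIdeal_eq_span_p]
            infer_instance
          have h0 : algebraMap ℤ_[p] (A ⧸ P) (p : ℤ_[p]) ≠ 0 := by
            rw [hmap, Ne, Ideal.Quotient.eq_zero_iff_mem]; exact hpP
          have hD := finite_free (R := ℤ_[p]) (D := A ⧸ P) (p : ℤ_[p]) PadicInt.irreducible_p
            h0 (by rw [hmap]; exact mk_mem_maximalIdeal P hpm) hc hcQ
          obtain ⟨hf1, hf2, k0, hk0⟩ := hD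
          obtain ⟨O, _, _, _, hO, j₁, hj₁, hm₁⟩ := Helper77.SM.exists_dvr_zero p (A ⧸ P)
            (algebraMap_injective_of (p : ℤ_[p]) PadicInt.irreducible_p h0)
          exact isOpen_KI_of_dvr p I hcore ρ hρ hr hI P O hO j₁ hj₁ hm₁
      · -- characteristic p
        by_cases hPm : P = maximalIdeal A
        · rw [hPm]; exact hρ1
        have hPlt : P < maximalIdeal A := lt_of_le_of_ne (le_maximalIdeal hP.ne_top) hPm
        rcases dichotomy P (1 : A) ((Ideal.ne_top_iff_one P).1 hP.ne_top) with H | ⟨c, hc, hcQ⟩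
        · let U := KI ρ (maximalIdeal A)
          have hprod : ∀ l : List U, l.length = n →
              MI P ((l.map fun g : U => ρ (g : Γ) - 1).prod) := by
            intro l hl i j
            apply H
            intro Q hQ hPQ _
            exact prod_mem_of_open p ρ Q hQ (hPQ.le hpP) (ih Q hPQ) l hl i j
          -- the augmentation submodule
          let S : Set (Matrix (Fin n) (Fin n) A) := Set.range fun u : U => ρ u - 1
          let N : Submodule A (Matrix (Fin n) (Fin n) A) := Submodule.span A S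
          have hNn : N ^ n ≤ MIsub n P := by
            rw [Submodule.span_pow, Submodule.span_le]
            intro x hx
            rw [Set.mem_pow] at hx
            obtain ⟨f, rfl⟩ := hx
            have hf : ∀ i : Fin n, ∃ u : U, ρ u - 1 = (f i : Matrix (Fin n) (Fin n) A) := fun i => (f i).2
            choose g hg using hf
            have h1 := hprod (List.ofFn g) (by simp)
            rw [List.map_ofFn] at h1
            have h2 : (fun i => (f i : Matrix (Fin n) (Fin n) A)) = (fun u : U => ρ u - 1) ∘ g := by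
              funext i; exact (hg i).symm
            rw [h2]
            exact h1
          have hstep : ∀ j : ℕ, ∃ V : Subgroup Γ, IsOpen (V : Set Γ) ∧ V ≤ U ∧
              ∀ v ∈ V, ρ v - 1 ∈ N ^ (j + 1) ⊔ MIsub n P := by
            intro j
            induction j with
            | zero =>
              refine ⟨U, hρ1, le_rfl, fun v hv => ?_⟩
              rw [zero_add, pow_one]
              exact Submodule.mem_sup_left (Submodule.subset_span ⟨⟨v, hv⟩, rfl⟩)
            | succ j ihj =>
              obtain ⟨V, hV, hVU, hVj⟩ := ihj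
              obtain ⟨V', hV', hVV', hV'W⟩ := add_step ρ hadd hρ V hV (N ^ (j + 1 + 1) ⊔ MIsub n P) (by
                intro u hu v hv
                obtain ⟨x, hx, y, hy, hxy⟩ := Submodule.mem_sup.1 (hVj u hu)
                rw [← hxy, add_mul]
                apply Submodule.add_mem
                · apply Submodule.mem_sup_left
                  rw [pow_succ (n := j + 1)]
                  exact Submodule.mul_mem_mul hx (Submodule.subset_span ⟨⟨v, hVU hv⟩, rfl⟩)
                · apply Submodule.mem_sup_right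
                  have hy' : MI P y := hy
                  exact hy'.mul_right _)
              exact ⟨V', hV', hVV'.trans hVU, hV'W⟩
          obtain ⟨j, rfl⟩ := Nat.exists_eq_succ_of_ne_zero hn.ne'
          obtain ⟨V, hV, hVU, hVj⟩ := hstep j
          refine Subgroup.isOpen_mono (H₁ := V) (H₂ := KI ρ P) (fun v hv => ?_) hV
          have h1 := hVj v hv
          rw [sup_eq_right.2 hNn] at h1
          exact h1
        · -- one-dimensional
          obtain ⟨x, hxm, hxP⟩ := Set.exists_of_ssubset hPlt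
          have hcomp := isAdicComplete_quotient P
          have hp0 : ((p : ℕ) : A ⧸ P) = 0 := by
            rw [← map_natCast (Ideal.Quotient.mk P), Ideal.Quotient.eq_zero_iff_mem]; exact hpP
          have hchar : CharP (A ⧸ P) p := (CharP.charP_iff_prime_eq_zero Fact.out).2 hp0
          let _ : Algebra (ZMod p) (A ⧸ P) := ZMod.algebra _ p
          obtain ⟨Φ, hΦ⟩ := exists_evalHom (R := ZMod p) (maximalIdeal (A ⧸ P))
            (Ideal.Quotient.mk P x) (mk_mem_maximalIdeal P hxm)
          let _ : Algebra (ZMod p)⟦X⟧ (A ⧸ P) := Φ.toAlgebra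
          have hmap : algebraMap (ZMod p)⟦X⟧ (A ⧸ P) X = Ideal.Quotient.mk P x := by
            change Φ X = _
            have := hΦ Polynomial.X
            rwa [Polynomial.coe_X, Polynomial.aeval_X] at this
          have h0 : algebraMap (ZMod p)⟦X⟧ (A ⧸ P) X ≠ 0 := by
            rw [hmap, Ne, Ideal.Quotient.eq_zero_iff_mem]; exact hxP
          have hD := finite_free (R := (ZMod p)⟦X⟧) (D := A ⧸ P) X PowerSeries.X_prime.irreducible
            h0 (by rw [hmap]; exact mk_mem_maximalIdeal P hxm) hc hcQ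
          obtain ⟨hf1, hf2, k0, hk0⟩ := hD
          obtain ⟨O, _, _, _, hO, j₁, hj₁, hm₁⟩ := Helper77.SM.exists_dvr_p p (A ⧸ P)
            (algebraMap_injective_of X PowerSeries.X_prime.irreducible h0)
          exact isOpen_KI_of_dvr p I hcore ρ hρ hr hI P O hO j₁ hj₁ hm₁

end

/-- From complete discrete valuation rings with finite residue field to all complete Noetherian
local rings with finite residue field, in a fixed dimension. -/
theorem general_of_dvr {Γ : Type} [Group Γ] [TopologicalSpace Γ] [IsTopologicalGroup Γ]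
    [CompactSpace Γ] (hfab : Helper77.SO.FAb Γ) (p : ℕ) [Fact p.Prime] {n : ℕ} (I : Set Γ)
    (hcore : ∀ (O : Type) [CommRing O] [IsDomain O] [IsDiscreteValuationRing O], Helper77.SM.Good p O →
      ∀ (ϖ : O), Irreducible ϖ → ∀ (σ : Γ →* Matrix (Fin n) (Fin n) O), Helper77.SM.Cont ϖ σ → Helper77.SM.ResP ϖ p σ →
        (∀ τ ∈ I, (σ τ - 1) ^ n = 0) → Helper77.SM.FinIm σ)
    (A : Type) [CommRing A] [IsLocalRing A] [IsNoetherianRing A] [CharP (ResidueField A) p]
    [Finite (ResidueField A)] [IsAdicComplete (maximalIdeal A) A]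
    (ρ : Γ →* Matrix (Fin n) (Fin n) A)
    (hρ : ∀ j : ℕ, ∃ U : Subgroup Γ, IsOpen (U : Set Γ) ∧
      ∀ g ∈ U, ∀ i l, (ρ g - 1) i l ∈ maximalIdeal A ^ j)
    (hr : ∀ g, ∃ j : ℕ, ∀ i l, (ρ g ^ p ^ j - 1) i l ∈ maximalIdeal A)
    (hI : ∀ τ ∈ I, (ρ τ - 1) ^ n = 0) :
    ∃ U : Subgroup Γ, IsOpen (U : Set Γ) ∧ ∀ g ∈ U, ρ g = 1 := by
  rcases Nat.eq_zero_or_pos n with rfl | hn
  · exact ⟨⊤, isOpen_univ, fun g _ => by ext i; exact i.elim0⟩
  have hρ' : ∀ j : ℕ, IsOpen (KI ρ (maximalIdeal A ^ j) : Set Γ) := by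
    intro j
    obtain ⟨U, hU, h⟩ := hρ j
    exact Subgroup.isOpen_mono (H₁ := U) (H₂ := KI ρ (maximalIdeal A ^ j)) h hU
  have hpm : (p : A) ∈ maximalIdeal A := by
    rw [← residue_eq_zero_iff, map_natCast]
    exact CharP.cast_eq_zero _ p
  refine ⟨KI ρ ⊥, isOpen_KI_all hfab p I hpm hcore ρ hρ' hr hI hn ⊥, fun g hg => ?_⟩
  rw [← sub_eq_zero]
  ext i j
  exact hg i j

end Pool.Agent.Helper39.SM
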